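import Pool.Agent.Helper98.TA.Basic
import Pool.Agent.Helper73.TWR.Tool
import Pool.Agent.Helper96.TWR.DNS
import Pool.Agent.Helper13.TWR.LZ

/-!
Row RIE of the sheet TA: relative independence for the saturated torsion extension of a stage.
-/

set_option linter.unusedSectionVars false

open MeasureTheory Filter Topology Finset
open scoped ComplexConjugate

namespace Pool.Agent.Helper92.TA

open Pool.Agent.Helper98.TW Pool.Agent.Helper73.TWR
open Pool.Agent.Helper40.TWM (St)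
open Pool.Agent.Helper98.GY (JY)
open Pool.Agent.Helper98.TA
open Pool.Agent.Helper96.TWR (st_PFC AM_factor AM_comp)

section one

variable {Ω : Type} [m0 : MeasurableSpace Ω] {μ : Measure Ω} [IsProbabilityMeasure μ]
  {S S' : Ω → Ω} {E : SA Ω}

theorem lz (hS : Sys μ S S') (he : Ergodic S μ) (hE : IA μ E S S') {φ : Ω → ℂ} (hφ : UF μ φ)
    (hi : Inc μ E S φ) (hn : ¬ AM μ E φ) : μ[φ|E] =ᵐ[μ] 0 := by
  rcases Pool.Agent.Helper13.TWR.st_LZ Pool.Agent.Helper73.TWR.st_CEC Ω μ S S' E φ hS he hE hφ hi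
    with h | h
  · exact h
  · exact absurd h hn

/-- A bounded function whose products with the unimodular functions with increments in `E`,
but not in `E`, have conditional expectation zero: the conditional expectation given the
extension is `E`-measurable. -/
theorem ce_fr (hS : Sys μ S S') (he : Ergodic S μ) (hE : IA μ E S S') {G : Ω → ℂ}
    (hG : AB μ G) (h : ∀ φ, UF μ φ → Inc μ E S φ → ¬ AM μ E φ →
      μ[fun x => conj (φ x) * G x|E] =ᵐ[μ] 0) :
    μ[G|fr μ S E] =ᵐ[μ] μ[G|E] := by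
  have hfr : IA μ (fr μ S E) S S' := ia_fr hS hE
  set K : Ω → ℂ := fun x => (μ[G|fr μ S E]) x - (μ[G|E]) x with hK
  have a1 : AB μ (μ[G|fr μ S E]) := hG.ce hfr.1
  have a2 : AB μ (μ[G|E]) := hG.ce hE.1
  have hKab : AB μ K := a1.sub a2
  have hKm : AM μ (fr μ S E) K := am_sub ce_am (lq_fr _ ce_am)
  have hK0 : K =ᵐ[μ] 0 := by
    refine Pool.Agent.Helper96.TWR.st_DNS Ω μ E (Ga μ S E) K hE.1 grp_Ga hKab.int hKm ?_
    rintro φ ⟨hφ, hi⟩
    have hφc : AB μ (fun x => conj (φ x)) := hφ.conj.ab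
    have e0 : (fun x => K x * conj (φ x)) = fun x => conj (φ x) * K x := by
      funext x
      exact mul_comm _ _
    rw [e0]
    by_cases hA : AM μ E φ
    · have h1 : μ[fun x => conj (φ x) * K x|E] =ᵐ[μ] fun x => conj (φ x) * (μ[K|E]) x :=
        pullb (am_conj hA) hφc hKab.int
      have h2 : μ[K|E] =ᵐ[μ] fun x => (μ[μ[G|fr μ S E]|E]) x - (μ[μ[G|E]|E]) x :=
        ce_sub ce_int ce_int
      have h3 := ce_tower (μ := μ) hE.1 hfr.1 lq_fr hG.int
      have h4 := ce_of_am (μ := μ) hE.1 (F := μ[G|E]) ce_int ce_am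
      filter_upwards [h1, h2, h3, h4] with x k1 k2 k3 k4
      rw [k1, k2, k3, k4]
      simp
    · -- the first part
      have h1 : μ[fun x => conj (φ x) * (μ[G|fr μ S E]) x|E] =ᵐ[μ] 0 := by
        have p1 : μ[fun x => conj (φ x) * G x|fr μ S E] =ᵐ[μ]
            fun x => conj (φ x) * (μ[G|fr μ S E]) x :=
          pullb (am_conj (am_fr hφ hi)) hφc hG.int
        have p2 := ce_congr (𝒜 := E) p1
        have p3 := ce_tower (μ := μ) hE.1 hfr.1 lq_fr (hφc.mul hG).int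
        have p4 := h φ hφ hi hA
        filter_upwards [p2, p3, p4] with x k2 k3 k4
        rw [← k2, k3, k4]
      -- the second part
      have h2 : μ[fun x => conj (φ x) * (μ[G|E]) x|E] =ᵐ[μ] 0 := by
        have p0 : μ[fun x => conj (φ x)|E] =ᵐ[μ] 0 := by
          refine lz hS he hE hφ.conj (inc_conj hi) fun hn => hA ?_
          have := am_conj hn
          simpa using this
        have p1 : μ[fun x => (μ[G|E]) x * conj (φ x)|E] =ᵐ[μ] 0 :=
          ce_mul_zero ce_am (a2.mul hφc).int hφc.int p0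
        have e1 : (fun x => conj (φ x) * (μ[G|E]) x) = fun x => (μ[G|E]) x * conj (φ x) := by
          funext x
          exact mul_comm _ _
        rw [e1]
        exact p1
      have h3 : μ[fun x => conj (φ x) * K x|E] =ᵐ[μ] fun x =>
          (μ[fun x => conj (φ x) * (μ[G|fr μ S E]) x|E]) x -
          (μ[fun x => conj (φ x) * (μ[G|E]) x|E]) x := by
        have e1 : (fun x => conj (φ x) * K x) = fun x =>
            conj (φ x) * (μ[G|fr μ S E]) x - conj (φ x) * (μ[G|E]) x := by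
          funext x
          simp only [hK]
          ring
        rw [e1]
        exact ce_sub (hφc.mul a1).int (hφc.mul a2).int
      filter_upwards [h1, h2, h3] with x k1 k2 k3
      rw [k3, k1, k2]
      simp
  filter_upwards [hK0] with x hx
  have : (μ[G|fr μ S E]) x - (μ[G|E]) x = 0 := hx
  exact sub_eq_zero.1 this

end one

section two

variable {Ω : Type} [m0 : MeasurableSpace Ω] {μ : Measure Ω} [IsProbabilityMeasure μ]
  {S S' : Ω → Ω} {p q : ℕ} {κ : Measure (Ω × Ω)} {E : SA Ω}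

/-- the projection of a bounded function on the first coordinate -/
theorem proj1 (h : JY S μ p q κ) {w : Ω × Ω → ℂ} (hw : AB κ w) :
    ∃ G : Ω → ℂ, AB μ G ∧ ∀ H : Ω → ℂ, AB μ H → ∫ z, H z.1 * w z ∂κ = ∫ x, H x * G x ∂μ := by
  have hP : IsProbabilityMeasure κ := h.prob
  have hmp : MeasurePreserving (Prod.fst : Ω × Ω → Ω) κ μ := jy_mp1 h
  have htop : Lm (m0 : SA Ω) := le_refl (α := MeasurableSpace Ω) _
  have hJ : Lm (J1 (m0 : SA Ω)) := lm_J1 htop
  have ham : AM κ (J1 (m0 : SA Ω)) (κ[w|J1 (m0 : SA Ω)]) := ce_am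
  obtain ⟨G, hGm, -, hG⟩ := AM_factor (μ' := μ) (π := (Prod.fst : Ω × Ω → Ω)) htop ham
  have hab : AB κ (κ[w|J1 (m0 : SA Ω)]) := hw.ce hJ
  obtain ⟨-, B, hB⟩ := hab
  have hGB : ∀ᵐ x ∂μ, ‖G x‖ ≤ B := by
    rw [← hmp.map_eq, ae_map_iff hmp.measurable.aemeasurable
      (measurableSet_le hGm.norm measurable_const)]
    filter_upwards [hB, hG] with z h1 h2
    rw [← h2]
    exact h1
  refine ⟨G, ⟨hGm.aestronglyMeasurable, B, hGB⟩, fun H hH => ?_⟩
  have hH1 : AB κ (fun z => H z.1) := hH.comp hmp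
  have hHm : AM κ (J1 (m0 : SA Ω)) (fun z => H z.1) :=
    AM_comp (μ' := μ) (𝒜 := (m0 : SA Ω)) hmp hH.1
  have h1 : ∫ z, H z.1 * (κ[w|J1 (m0 : SA Ω)]) z ∂κ = ∫ z, H z.1 * w z ∂κ :=
    int_ce hJ hHm hH1 hw.int
  rw [← h1]
  have h2 : ∫ z, H z.1 * (κ[w|J1 (m0 : SA Ω)]) z ∂κ = ∫ z, (fun x => H x * G x) z.1 ∂κ := by
    refine integral_congr_ae ?_
    filter_upwards [hG] with z hz
    rw [hz]
  rw [h2]
  conv_rhs => rw [← hmp.map_eq]
  rw [integral_map hmp.measurable.aemeasurable]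
  rw [hmp.map_eq]
  exact hH.1.mul hGm.aestronglyMeasurable

end two

theorem st_RIE (hRTH : ST_RTH) : ST_RIE := by
  intro Ω m0 μ _ S S' s E hSt hs hCt hSa hRs hRf p q κ hp hq hκ F hF
  have hP : IsProbabilityMeasure κ := hκ.prob
  have hmp : MeasurePreserving (Prod.fst : Ω × Ω → Ω) κ μ := jy_mp1 hκ
  have hS : Sys μ S S' := St.s1 hSt
  have he : Ergodic S μ := St.e1 hSt
  have hE : IA μ E S S' := hCt.ia hS hs
  have hfr : IA μ (fr μ S E) S S' := ia_fr hS hE
  have hsys := sys_jy hS hκ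
  have hC : IA κ (jo (J1 E) (J2 E)) (Prod.map S^[p] S^[q]) (Prod.map S'^[p] S'^[q]) :=
    Pool.Agent.Helper98.TA.ia_jo hsys (ia_J1 hS hκ hE) (ia_J2 hS hκ hE)
  have hJ : Lm (jo (J1 (fr μ S E)) (J2 (fr μ S E))) := lm_jo (lm_J1 hfr.1) (lm_J2 hfr.1)
  have hCJ : @LE.le (MeasurableSpace (Ω × Ω)) _ (jo (J1 E) (J2 E))
      (jo (J1 (fr μ S E)) (J2 (fr μ S E))) :=
    jo_mono (J1_mono le_fr) (J2_mono le_fr)
  -- functions with increments in `E`
  have hort : ∀ φ : Ω → ℂ, UF μ φ → Inc μ E S φ → ¬ AM μ E φ →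
      κ[fun z => φ z.1|jo (J1 E) (J2 E)] =ᵐ[κ] 0 := by
    intro φ hφ hi hA
    have h1 : Inc κ (jo (J1 E) (J2 E)) (Prod.map S^[p] S^[q]) (fun z => φ z.1) :=
      inc_mono lq_jo_left (inc_J1 st_PFC hS hκ hE.1 hφ
        (Pool.Agent.Helper98.TA.inc_iter hE hS hφ hi p))
    exact lz hsys hκ.erg hC (uf_J1 hκ hφ) h1 fun hn =>
      hA ((hRTH Ω μ S S' s E p q κ φ hSt hs hCt hSa hRs hp hq hκ hφ hi).1 hn)
  have hFab : AB μ F := hF.ab
  have hF1 : AB κ (fun z => F z.1) := hFab.comp hmp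
  have hEab : AB μ (μ[F|E]) := hFab.ce hE.1
  have hE1 : AB κ (fun z => (μ[F|E]) z.1) := hEab.comp hmp
  have hce := ce_J1 st_PFC hκ hE.1 hFab.int
  have hcef := ce_J1 st_PFC hκ hfr.1 hFab.int
  have hEm : AM κ (J1 E) (fun z => (μ[F|E]) z.1) := AM_comp (μ' := μ) hmp ce_am
  refine EventuallyEq.trans ?_ hce.symm
  symm
  refine ce_unique hC.1 hF1.int hE1.int (am_jo_left hEm) fun t ht => ?_
  have hwb : AB κ (ind t) := ab_ind hC.1 ht
  have hwm : AM κ (jo (J1 E) (J2 E)) (ind t) := am_ind κ ht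
  obtain ⟨G, hG, hGi⟩ := proj1 hκ hwb
  -- products with the functions with increments in `E`
  have hG0 : ∀ φ, UF μ φ → Inc μ E S φ → ¬ AM μ E φ →
      μ[fun x => conj (φ x) * G x|E] =ᵐ[μ] 0 := by
    intro φ hφ hi hA
    have hφc : AB μ (fun x => conj (φ x)) := hφ.conj.ab
    refine ce_zero hE.1 (hφc.mul hG).int fun r hr => ?_
    have hrb : AB μ (ind r) := ab_ind hE.1 hr
    have h1 := hGi (fun x => ind r x * conj (φ x)) (hrb.mul hφc)
    have e1 : ∫ x, ind r x * (conj (φ x) * G x) ∂μ = ∫ x, (ind r x * conj (φ x)) * G x ∂μ := by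
      refine integral_congr_ae (Eventually.of_forall fun x => ?_)
      simp only
      ring
    rw [e1, ← h1]
    have hrb1 : AB κ (fun z => ind r z.1) := hrb.comp hmp
    have hrm : AM κ (jo (J1 E) (J2 E)) (fun z => ind r z.1) :=
      am_jo_left (AM_comp (μ' := μ) hmp (am_ind μ hr))
    have hφ1 : AB κ (fun z => conj (φ z.1)) := hφc.comp hmp
    have h2 := int_zero_of_ce hC.1 (g := fun z => ind r z.1 * ind t z) (F := fun z => conj (φ z.1))
      (am_mul hrm hwm) ((hrb1.mul hwb).mul hφ1).int hφ1.int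
      (hort (fun x => conj (φ x)) hφ.conj (inc_conj hi) fun hn => hA (by simpa using am_conj hn))
    rw [← h2]
    refine integral_congr_ae (Eventually.of_forall fun z => ?_)
    simp only
    ring
  have hGe := ce_fr hS he hE hG hG0
  -- the integrals
  have hfab : AB μ (μ[F|fr μ S E]) := hFab.ce hfr.1
  have hGE : AB μ (μ[G|E]) := hG.ce hE.1
  have s1 : ∫ z, ind t z * F z.1 ∂κ = ∫ x, (μ[F|fr μ S E]) x * G x ∂μ := by
    have k1 := int_ce (μ := κ) hJ (Pool.Agent.Helper98.TW.am_mono hCJ hwm) hwb hF1.int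
    have k2 := hRf p q κ hp hq hκ F hF
    have k3 := hGi (μ[F|fr μ S E]) hfab
    rw [← k1, ← k3]
    refine integral_congr_ae ?_
    filter_upwards [k2, hcef] with z e1 e2
    rw [e1, e2, mul_comm]
  have s2 : ∫ x, (μ[F|fr μ S E]) x * G x ∂μ = ∫ x, (μ[G|E]) x * F x ∂μ := by
    have k1 : ∫ x, (μ[F|fr μ S E]) x * (μ[G|fr μ S E]) x ∂μ = ∫ x, (μ[F|fr μ S E]) x * G x ∂μ :=
      int_ce hfr.1 ce_am hfab hG.int
    have k2 : ∫ x, (μ[G|E]) x * (μ[F|fr μ S E]) x ∂μ = ∫ x, (μ[G|E]) x * F x ∂μ :=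
      int_ce hfr.1 (lq_fr _ ce_am) hGE hFab.int
    rw [← k1, ← k2]
    refine integral_congr_ae ?_
    filter_upwards [hGe] with x e1
    rw [e1, mul_comm]
  have s3 : ∫ x, (μ[G|E]) x * F x ∂μ = ∫ x, (μ[F|E]) x * G x ∂μ := by
    have k1 : ∫ x, (μ[G|E]) x * (μ[F|E]) x ∂μ = ∫ x, (μ[G|E]) x * F x ∂μ :=
      int_ce hE.1 ce_am hGE hFab.int
    have k2 : ∫ x, (μ[F|E]) x * (μ[G|E]) x ∂μ = ∫ x, (μ[F|E]) x * G x ∂μ :=
      int_ce hE.1 ce_am hEab hG.int
    rw [← k1, ← k2]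
    refine integral_congr_ae (Eventually.of_forall fun x => ?_)
    exact mul_comm _ _
  have s4 := hGi (μ[F|E]) hEab
  rw [s1, s2, s3, ← s4]
  refine integral_congr_ae (Eventually.of_forall fun z => ?_)
  exact mul_comm _ _

end Pool.Agent.Helper92.TA
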