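import Pool.Agent.Helper92.TA.WMG

/-!
Row TVC of the sheet TA: the inequality of van der Corput for the masses.
-/

set_option linter.unusedSectionVars false

open MeasureTheory Filter Topology Finset
open scoped ComplexConjugate

namespace Pool.Agent.Helper92.TA

open Pool.Agent.Helper98.TW Pool.Agent.Helper73.TWR Pool.Agent.Helper92.TWR
open Pool.Agent.Helper98.TA (A0 TV Dq ST_TVC)

variable {Ω : Type} [m0 : MeasurableSpace Ω] {μ : Measure Ω} [IsProbabilityMeasure μ]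
  {S S' : Ω → Ω} {D : SA Ω} {G g : Ω → ℂ}

theorem sqrt_be (G : Ω → ℂ) (h : ℕ) :
    √(be μ bo S G h) = ‖∫ x, G (S^[h] x) * conj (G x) ∂μ‖ := by
  unfold be
  have e : μ[fun x => G (S^[h] x) * conj (G x)|bo] =
      fun _ => ∫ x, G (S^[h] x) * conj (G x) ∂μ := condExp_bot _
  rw [e]
  simp

/-- one correlation -/
theorem tv_corr (hS : Sys μ S S') (hD : IA μ D S S') (hG : BF G) (hg : BF g)
    (hgD : AM μ D g) {B : ℝ} (hB : ∀ᵐ x ∂μ, ‖g x‖ ≤ B) {δ : ℝ} (h m : ℕ)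
    (hT : ∫ x, ‖(μ[fun x => G (S^[h + m] x) * conj (G (S^[m] x))|D]) x -
      ∫ y, G (S^[h + m] y) * conj (G (S^[m] y)) ∂μ‖ ^ 2 ∂μ ≤ δ) :
    ‖Tc μ S g G (h + m) m‖ ≤ (∫ x, ‖g x‖ ^ 2 ∂μ) * √(be μ bo S G h) + B ^ 2 * √δ := by
  have hSn : ∀ n : ℕ, Measurable S^[n] := fun n => hS.mp.measurable.iterate n
  set P : Ω → ℂ := fun x => G (S^[h + m] x) * conj (G (S^[m] x)) with hP
  set u : Ω → ℂ := fun x => conj (g (S^[h + m] x)) * g (S^[m] x) with hu
  have hPb : BF P := bf_mul (bf_comp hG (hSn _)) (bf_conj (bf_comp hG (hSn _)))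
  have hub : BF u := bf_mul (bf_conj (bf_comp hg (hSn _))) (bf_comp hg (hSn _))
  have huD : AM μ D u := am_mul (am_conj (am_comp hD hgD _)) (am_comp hD hgD _)
  set c : ℂ := ∫ y, P y ∂μ with hc
  -- the mean
  have hcv : c = ∫ x, G (S^[h] x) * conj (G x) ∂μ := by
    have e : P = fun x => (fun x => G (S^[h] x) * conj (G x)) (S^[m] x) := by
      funext x
      simp only [hP, Function.iterate_add_apply]
    rw [hc, e]
    exact Pool.Agent.Helper92.TWR.int_comp (hS.mp.iterate m)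
      (g := fun x => G (S^[h] x) * conj (G x))
      (bf_mul (bf_comp hG (hSn _)) (bf_conj hG)).1.aestronglyMeasurable
  have hcb : √(be μ bo S G h) = ‖c‖ := by rw [sqrt_be, hcv]
  -- square norms of the iterates
  have hgn : ∀ n : ℕ, ∫ x, ‖g (S^[n] x)‖ ^ 2 ∂μ = ∫ x, ‖g x‖ ^ 2 ∂μ := fun n =>
    Pool.Agent.Helper92.TWR.int_comp (hS.mp.iterate n) (g := fun x => ‖g x‖ ^ 2)
      (hg.1.norm.pow_const 2).aestronglyMeasurable
  have hx0 : 0 ≤ ∫ x, ‖g x‖ ^ 2 ∂μ := integral_nonneg fun x => by positivity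
  have hu1 : ‖∫ x, u x ∂μ‖ ≤ ∫ x, ‖g x‖ ^ 2 ∂μ := by
    have h1 := cs (μ := μ) (bf_memLp (bf_conj (bf_comp hg (hSn (h + m)))))
      (bf_memLp (bf_comp hg (hSn m)))
    have e1 : ∫ x, ‖conj (g (S^[h + m] x))‖ ^ 2 ∂μ = ∫ x, ‖g x‖ ^ 2 ∂μ := by
      rw [← hgn (h + m)]
      refine integral_congr_ae (Eventually.of_forall fun x => ?_)
      simp only [RCLike.norm_conj]
    rw [e1, hgn m, Real.mul_self_sqrt hx0] at h1
    exact h1
  -- the error
  set r : Ω → ℂ := fun x => (μ[P|D]) x - c with hr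
  have hrab : AB μ r := ((hPb.ab (μ := μ)).ce hD.1).sub (ab_const c)
  have hrm : MemLp r 2 μ := hrab.memLp
  have hu2 : ∫ x, ‖u x‖ ^ 2 ∂μ ≤ (B ^ 2) ^ 2 := by
    have h1 : ∫ x, ‖u x‖ ^ 2 ∂μ ≤ ∫ _x, (B ^ 2) ^ 2 ∂μ := by
      refine integral_mono_ae ((bf_memLp hub).integrable_norm_pow (by norm_num))
        (integrable_const _) ?_
      filter_upwards [(hS.mp.iterate (h + m)).quasiMeasurePreserving.ae hB,
        (hS.mp.iterate m).quasiMeasurePreserving.ae hB] with x k1 k2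
      refine pow_le_pow_left₀ (norm_nonneg _) ?_ 2
      simp only [hu, norm_mul, RCLike.norm_conj]
      rw [sq]
      exact mul_le_mul k1 k2 (norm_nonneg _) ((norm_nonneg _).trans k1)
    simpa using h1
  have hsplit : Tc μ S g G (h + m) m = c * (∫ x, u x ∂μ) + ∫ x, u x * r x ∂μ := by
    have e1 : Tc μ S g G (h + m) m = ∫ x, u x * (μ[P|D]) x ∂μ := by
      rw [int_ce hD.1 huD hub.ab (bf_int hPb)]
      rfl
    rw [e1, ← integral_const_mul, ← integral_add ((bf_int hub).const_mul c)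
      (hub.ab.mul hrab).int]
    refine integral_congr_ae (Eventually.of_forall fun x => ?_)
    simp only [hr]
    ring
  rw [hsplit]
  refine (norm_add_le _ _).trans (add_le_add ?_ ?_)
  · rw [norm_mul, hcb, mul_comm]
    exact mul_le_mul_of_nonneg_right hu1 (norm_nonneg _)
  · refine (cs (μ := μ) (bf_memLp hub) hrm).trans ?_
    refine mul_le_mul ?_ (Real.sqrt_le_sqrt hT) (Real.sqrt_nonneg _) (by positivity)
    exact Real.sqrt_le_left (by positivity) |>.2 hu2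

/-- all correlations -/
theorem tv_sum (hS : Sys μ S S') (hD : IA μ D S S') (hG : BF G) (hg : BF g)
    (hgD : AM μ D g) {B : ℝ} (hB : ∀ᵐ x ∂μ, ‖g x‖ ≤ B) {δ : ℝ} (N : ℕ)
    (hT : ∀ m n : ℕ, m < N → n < N →
      ∫ x, ‖(μ[fun x => G (S^[m] x) * conj (G (S^[n] x))|D]) x -
      ∫ y, G (S^[m] y) * conj (G (S^[n] y)) ∂μ‖ ^ 2 ∂μ ≤ δ) :
    ∑ p ∈ range N ×ˢ range N, ‖Tc μ S g G p.1 p.2‖ ≤
      (∫ x, ‖g x‖ ^ 2 ∂μ) * ∑ p ∈ range N ×ˢ range N,
        √(be μ bo S G ((p.1 - p.2) + (p.2 - p.1))) + (N : ℝ) ^ 2 * (B ^ 2 * √δ) := by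
  have h1 : ∀ p ∈ range N ×ˢ range N, ‖Tc μ S g G p.1 p.2‖ ≤
      (∫ x, ‖g x‖ ^ 2 ∂μ) * √(be μ bo S G ((p.1 - p.2) + (p.2 - p.1))) + B ^ 2 * √δ := by
    rintro ⟨n, m⟩ hp
    rw [Finset.mem_product, Finset.mem_range, Finset.mem_range] at hp
    obtain ⟨hn, hm⟩ : n < N ∧ m < N := hp
    show ‖Tc μ S g G n m‖ ≤
      (∫ x, ‖g x‖ ^ 2 ∂μ) * √(be μ bo S G ((n - m) + (m - n))) + B ^ 2 * √δ
    rcases le_total m n with hmn | hmn
    · have := tv_corr hS hD hG hg hgD hB (δ := δ) (n - m) m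
        (by rw [Nat.sub_add_cancel hmn]; exact hT n m hn hm)
      rw [Nat.sub_add_cancel hmn] at this
      rw [Nat.sub_eq_zero_of_le hmn, add_zero]
      exact this
    · have := tv_corr hS hD hG hg hgD hB (δ := δ) (m - n) n
        (by rw [Nat.sub_add_cancel hmn]; exact hT m n hm hn)
      rw [Nat.sub_add_cancel hmn] at this
      rw [Nat.sub_eq_zero_of_le hmn, zero_add, Tc_comm]
      exact this
  refine (Finset.sum_le_sum h1).trans_eq ?_
  rw [Finset.sum_add_distrib, ← Finset.mul_sum, Finset.sum_const, Finset.card_product,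
    Finset.card_range, nsmul_eq_mul]
  push_cast
  ring

theorem st_TVC : ST_TVC := by
  intro Ω m0 μ _ S S' G hSt hG hG0 hA hTV ε hε
  have hS : Sys μ S S' := hSt.sys 1
  obtain ⟨hGm, B0, hB0⟩ := id hG
  set B : ℝ := max B0 1 with hBdef
  have hB1 : 1 ≤ B := le_max_right _ _
  have hB : ∀ x, ‖G x‖ ≤ B := fun x => (hB0 x).trans (le_max_left _ _)
  have hlim := sqrt_lim (β := be μ bo S G) (be_nonneg bo S G) fun A hA' => a0_sum hA hA'
  obtain ⟨N, hN1, hN⟩ := (((tendsto_order.1 hlim).2 (ε / 2) (by linarith)).and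
    (eventually_ge_atTop 1)).exists
  have hN0 : (0 : ℝ) < N := by exact_mod_cast hN
  set δ : ℝ := (ε ^ 2 / (2 * B ^ 2)) ^ 2 with hδ
  have hδ0 : 0 < δ := by positivity
  choose q hq using fun p : ℕ × ℕ => hTV p.1 p.2 δ hδ0
  refine ⟨(range N ×ˢ range N).sup q, fun r hr hrp D hD => ?_⟩
  obtain ⟨g, hg, hgD, hgG⟩ := ce_bf (μ := μ) hD.1.1 hG
  have hgB : ∀ᵐ x ∂μ, ‖g x‖ ≤ B := by
    filter_upwards [hgG, ce_bdd (μ := μ) hD.1.1 (bf_int hG) (Eventually.of_forall hB)]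
      with x h1 h2
    rw [h1]
    exact h2
  have h1 := tv_sum hS hD.1 hG hg hgD hgB (δ := δ) N fun m n hm hn =>
    hq (m, n) r ((Finset.le_sup (f := q) (Finset.mem_product.2
      ⟨Finset.mem_range.2 hm, Finset.mem_range.2 hn⟩)).trans hr) hrp D hD
  have h2 := (left_le hS hD.1 hG hg hgD hgG N).trans h1
  set x : ℝ := ∫ x, ‖g x‖ ^ 2 ∂μ with hx
  have hx0 : 0 ≤ x := integral_nonneg fun x => by positivity
  have e1 : ∫ x, ‖(μ[G|D]) x - ∫ y, G y ∂μ‖ ^ 2 ∂μ = x := by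
    refine integral_congr_ae ?_
    filter_upwards [hgG] with z hz
    rw [hG0, sub_zero, hz]
  rw [e1]
  have e2 : B ^ 2 * √δ = ε ^ 2 / 2 := by
    rw [hδ, Real.sqrt_sq (by positivity)]
    field_simp
  rw [e2] at h2
  rw [div_lt_iff₀ (by positivity)] at hN1
  by_contra hlt
  push Not at hlt
  have h3 : x * ∑ p ∈ range N ×ˢ range N,
      √(be μ bo S G ((p.1 - p.2) + (p.2 - p.1))) ≤ x * (ε / 2 * (N : ℝ) ^ 2) :=
    mul_le_mul_of_nonneg_left hN1.le hx0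
  have h4 : (x ^ 2) * (N : ℝ) ^ 2 ≤ (x * (ε / 2) + ε ^ 2 / 2) * (N : ℝ) ^ 2 := by
    nlinarith
  have h5 := le_of_mul_le_mul_right h4 (by positivity)
  nlinarith

end Pool.Agent.Helper92.TA
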