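import Pool.Agent.Helper92.TA.WMG
import Pool.Agent.Helper96.TWR.DNS

/-!
Row WM1 of the sheet TA: unimodular functions with increments are orthogonal.
-/

set_option linter.unusedSectionVars false

open MeasureTheory Filter Topology Finset
open scoped ComplexConjugate

namespace Pool.Agent.Helper92.TA

open Pool.Agent.Helper98.TW Pool.Agent.Helper73.TWR Pool.Agent.Helper92.TWR
open Pool.Agent.Helper98.TA (A0 ST_WM1)

variable {Ω : Type} [m0 : MeasurableSpace Ω] {μ : Measure Ω} [IsProbabilityMeasure μ]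
  {R R' : Ω → Ω} {C : SA Ω} {f : Ω → ℂ}

/-- increments for the iterates -/
theorem inc_iter (hS : Sys μ R R') (hC : IA μ C R R') {φ : Ω → ℂ} (hφ : UF μ φ)
    (hi : Inc μ C R φ) (h : ℕ) : Inc μ C R^[h] φ := by
  induction h with
  | zero =>
    refine am_congr (am_const (μ := μ) (𝒜 := C) 1) ?_
    filter_upwards [hφ.mul_conj] with x hx
    exact hx.symm
  | succ n ih =>
    have h1 : AM μ C (fun x => φ (R (R^[n] x)) * conj (φ (R^[n] x))) :=
      am_comp (F := fun x => φ (R x) * conj (φ x)) hC hi n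
    refine am_congr (am_mul h1 ih) ?_
    filter_upwards [(hφ.comp (hS.mp.iterate n)).conj_mul] with x hx
    rw [Function.iterate_succ_apply']
    have : φ (R (R^[n] x)) * conj (φ (R^[n] x)) * (φ (R^[n] x) * conj (φ x)) =
        φ (R (R^[n] x)) * conj (φ x) * (conj (φ (R^[n] x)) * φ (R^[n] x)) := by ring
    rw [this, hx, mul_one]

/-- orthogonality to one function -/
theorem wm_orth (hS : Sys μ R R') (hC : IA μ C R R') (hf : BF f) (hA : A0 μ C R f)
    {φ : Ω → ℂ} (hφ : UF μ φ) (hi : Inc μ C R φ) :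
    μ[fun x => f x * conj (φ x)|C] =ᵐ[μ] 0 := by
  have hRn : ∀ n : ℕ, Measurable R^[n] := fun n => hS.mp.measurable.iterate n
  obtain ⟨g, hg, hgφ⟩ := hφ.ab.bf
  have hlim := st_WMG Ω μ R R' C f g hS hC hf hg hA
  set e : Ω → ℂ := μ[fun x => f x * conj (φ x)|C] with he
  have hab : AB μ (fun x => f x * conj (φ x)) := hf.ab.mul hφ.conj.ab
  have hem : MemLp e 2 μ := (hab.ce hC.1).memLp
  have key : ∀ h : ℕ, ∫ x, ‖(μ[fun x => conj (g x) * f (R^[h] x)|C]) x‖ ^ 2 ∂μ =
      ∫ x, ‖e x‖ ^ 2 ∂μ := by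
    intro h
    have hφh : UF μ (fun x => φ (R^[h] x)) := hφ.comp (hS.mp.iterate h)
    -- the increment
    have hw : AM μ C (fun x => φ (R^[h] x) * conj (φ x)) := inc_iter hS hC hφ hi h
    have hwb : AB μ (fun x => φ (R^[h] x) * conj (φ x)) := hφh.ab.mul hφ.conj.ab
    have hfh : AB μ (fun x => f (R^[h] x) * conj (φ (R^[h] x))) :=
      hab.comp (π := R^[h]) (hS.mp.iterate h)
    have h1 : (fun x => conj (g x) * f (R^[h] x)) =ᵐ[μ] fun x =>
        (φ (R^[h] x) * conj (φ x)) * (f (R^[h] x) * conj (φ (R^[h] x))) := by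
      filter_upwards [hgφ, hφh.mul_conj] with x k1 k2
      rw [k1]
      have : φ (R^[h] x) * conj (φ x) * (f (R^[h] x) * conj (φ (R^[h] x))) =
          conj (φ x) * f (R^[h] x) * (φ (R^[h] x) * conj (φ (R^[h] x))) := by ring
      rw [this, k2, mul_one]
    have h2 := ce_congr (𝒜 := C) h1
    have h3 := pullb (μ := μ) hw hwb hfh.int
    have h4 := cec (hS.iterate h) (hC.iterate h) hab.int
    have h5 : ∫ x, ‖(μ[fun x => conj (g x) * f (R^[h] x)|C]) x‖ ^ 2 ∂μ =
        ∫ x, ‖e (R^[h] x)‖ ^ 2 ∂μ := by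
      refine integral_congr_ae ?_
      filter_upwards [h2, h3, h4, hφh.2, hφ.2] with x k2 k3 k4 k5 k6
      rw [k2, k3, k4]
      simp only [norm_mul, RCLike.norm_conj, k5, k6, mul_one, one_mul]
      rfl
    rw [h5]
    exact Pool.Agent.Helper92.TWR.int_comp (hS.mp.iterate h) (g := fun x => ‖e x‖ ^ 2)
      ((ce_meas hC.1).norm.pow_const 2).aestronglyMeasurable
  have h0 : ∫ x, ‖e x‖ ^ 2 ∂μ = 0 := by
    refine tendsto_nhds_unique (f := fun H : ℕ => (∑ h ∈ range H,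
      ∫ x, ‖(μ[fun x => conj (g x) * f (R^[h] x)|C]) x‖ ^ 2 ∂μ) / (H : ℝ)) ?_ hlim
    refine tendsto_const_nhds.congr' ?_
    filter_upwards [eventually_ge_atTop 1] with H hH
    have hH0 : (0 : ℝ) < H := by exact_mod_cast hH
    rw [Finset.sum_congr rfl fun h _ => key h, Finset.sum_const, Finset.card_range, nsmul_eq_mul]
    field_simp
  have hi2 : Integrable (fun x => ‖e x‖ ^ 2) μ := hem.integrable_norm_pow (by norm_num)
  rw [integral_eq_zero_iff_of_nonneg (fun x => by positivity) hi2] at h0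
  filter_upwards [h0] with x hx
  simpa using hx

theorem st_WM1 : ST_WM1 := by
  intro Ω m0 μ _ R R' C f hS hC hf hA
  refine ⟨fun φ hφ hi => wm_orth hS hC hf hA hφ hi, fun Φ hΦ hi => ?_⟩
  have hJ : Lm (jo C (sg Φ)) := lm_jo hC.1 (lm_sg fun φ hφ => (hΦ.uf φ hφ).1)
  refine Pool.Agent.Helper96.TWR.st_DNS Ω μ C Φ _ hC.1 hΦ ce_int ce_am fun φ hφ => ?_
  have hφu := hΦ.uf φ hφ
  have h1 : μ[fun x => conj (φ x) * f x|jo C (sg Φ)] =ᵐ[μ]
      fun x => conj (φ x) * (μ[f|jo C (sg Φ)]) x :=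
    pullb (am_jo_right (am_conj (am_sg hφ))) hφu.conj.ab hf.ab.int
  have h2 : μ[fun x => (μ[f|jo C (sg Φ)]) x * conj (φ x)|C] =ᵐ[μ]
      μ[μ[fun x => conj (φ x) * f x|jo C (sg Φ)]|C] := by
    refine ce_congr ?_
    filter_upwards [h1] with x hx
    rw [hx, mul_comm]
  have h3 : μ[μ[fun x => conj (φ x) * f x|jo C (sg Φ)]|C] =ᵐ[μ]
      μ[fun x => conj (φ x) * f x|C] :=
    ce_tower hC.1 hJ lq_jo_left (hφu.conj.ab.mul hf.ab).int
  have h4 : μ[fun x => conj (φ x) * f x|C] =ᵐ[μ] 0 := by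
    have e : (fun x => conj (φ x) * f x) = fun x => f x * conj (φ x) := by
      funext x
      exact mul_comm _ _
    rw [e]
    exact wm_orth hS hC hf hA hφu (hi φ hφ)
  exact h2.trans (h3.trans h4)

end Pool.Agent.Helper92.TA
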