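import Pool.Agent.Helper92.TWR.BI
import Pool.Agent.Helper98.TA.Stmts

/-!
Row WMG of the sheet TA: correlations with a second function (the inequality of van der Corput).
-/

set_option linter.unusedSectionVars false

open MeasureTheory Filter Topology Finset
open scoped ComplexConjugate

namespace Pool.Agent.Helper92.TA

open Pool.Agent.Helper98.TW Pool.Agent.Helper73.TWR Pool.Agent.Helper92.TWR
open Pool.Agent.Helper98.TA (A0 ST_WMG)

variable {Ω : Type} [m0 : MeasurableSpace Ω] {μ : Measure Ω} [IsProbabilityMeasure μ]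

/-! ### general tools -/

/-- the square norm of a sum -/
theorem van {a : ℕ → Ω → ℂ} (ha : ∀ n, BF (a n)) (b : ℕ → ℝ) (N : ℕ)
    (hb : ∀ h m, h + m < N → ‖∫ x, a (h + m) x * conj (a m x) ∂μ‖ ≤ b h) :
    ∫ x, ‖∑ n ∈ range N, a n x‖ ^ 2 ∂μ ≤
      ∑ p ∈ range N ×ˢ range N, b ((p.1 - p.2) + (p.2 - p.1)) := by
  have h5 : ((∫ x, ‖∑ n ∈ range N, a n x‖ ^ 2 ∂μ : ℝ) : ℂ) =
      ∑ p ∈ range N ×ˢ range N, ∫ x, a p.1 x * conj (a p.2 x) ∂μ := by
    rw [← integral_complex_ofReal, ← integral_finsetSum]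
    · refine integral_congr_ae (Eventually.of_forall fun x => ?_)
      show ((‖∑ n ∈ range N, a n x‖ ^ 2 : ℝ) : ℂ) = ∑ p ∈ range N ×ˢ range N, _
      have e1 : ((‖∑ n ∈ range N, a n x‖ ^ 2 : ℝ) : ℂ) =
          (∑ n ∈ range N, a n x) * conj (∑ n ∈ range N, a n x) := by
        rw [Complex.mul_conj, Complex.normSq_eq_norm_sq]
      rw [e1, map_sum, Finset.sum_mul_sum, Finset.sum_product]
    · intro p _
      exact bf_int (bf_mul (ha _) (bf_conj (ha _)))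
  have h6 : ∫ x, ‖∑ n ∈ range N, a n x‖ ^ 2 ∂μ =
      ‖((∫ x, ‖∑ n ∈ range N, a n x‖ ^ 2 ∂μ : ℝ) : ℂ)‖ := by
    rw [Complex.norm_real, Real.norm_of_nonneg (integral_nonneg fun x => by positivity)]
  rw [h6, h5]
  refine (norm_sum_le _ _).trans (Finset.sum_le_sum ?_)
  rintro ⟨n, m⟩ hp
  rw [Finset.mem_product, Finset.mem_range, Finset.mem_range] at hp
  show ‖∫ x, a n x * conj (a m x) ∂μ‖ ≤ b ((n - m) + (m - n))
  rcases le_total m n with hmn | hmn
  · have := hb (n - m) m (by rw [Nat.sub_add_cancel hmn]; exact hp.1)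
    rw [Nat.sub_add_cancel hmn] at this
    rw [Nat.sub_eq_zero_of_le hmn, add_zero]
    exact this
  · have := hb (m - n) n (by rw [Nat.sub_add_cancel hmn]; exact hp.2)
    rw [Nat.sub_add_cancel hmn] at this
    rw [Nat.sub_eq_zero_of_le hmn, zero_add]
    have e : ∫ x, a n x * conj (a m x) ∂μ = conj (∫ x, a m x * conj (a n x) ∂μ) := by
      rw [← integral_conj]
      refine integral_congr_ae (Eventually.of_forall fun x => ?_)
      simp only [map_mul, Complex.conj_conj]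
      ring
    rw [e, RCLike.norm_conj]
    exact this

/-- the mean of the norm -/
theorem l1_le {G : Ω → ℂ} (hG : MemLp G 2 μ) : ∫ x, ‖G x‖ ∂μ ≤ √(∫ x, ‖G x‖ ^ 2 ∂μ) := by
  have h1 := integral_mul_norm_le_Lp_mul_Lq (μ := μ) (f := G) (g := fun _ : Ω => (1 : ℂ))
    (Real.HolderConjugate.two_two) (by simpa using hG)
    (by simpa using memLp_const (μ := μ) (p := 2) (1 : ℂ))
  have h2 : ∫ x, ‖G x‖ ∂μ = ∫ x, ‖G x‖ * ‖(1 : ℂ)‖ ∂μ := by simp
  rw [h2]
  refine h1.trans_eq ?_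
  rw [Real.sqrt_eq_rpow]
  simp

/-- relative correlations of two iterates -/
theorem be_shift {R R' : Ω → Ω} {C : SA Ω} {F : Ω → ℂ} (hS : Sys μ R R') (hC : IA μ C R R')
    (hF : BF F) (h m : ℕ) :
    ∫ x, ‖(μ[fun x => F (R^[h + m] x) * conj (F (R^[m] x))|C]) x‖ ^ 2 ∂μ = be μ C R F h := by
  have hRn : ∀ n : ℕ, Measurable R^[n] := fun n => hS.mp.measurable.iterate n
  set P0 : Ω → ℂ := fun x => F (R^[h] x) * conj (F x) with hP0
  have hP0b : BF P0 := bf_mul (bf_comp hF (hRn _)) (bf_conj hF)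
  have hPP : (fun x => F (R^[h + m] x) * conj (F (R^[m] x))) = fun x => P0 (R^[m] x) := by
    funext x
    simp only [hP0, Function.iterate_add_apply]
  have h1 := cec (hS.iterate m) (hC.iterate m) (bf_int (μ := μ) hP0b)
  have h2 : ∫ x, ‖(μ[fun x => P0 (R^[m] x)|C]) x‖ ^ 2 ∂μ =
      ∫ x, ‖(μ[P0|C]) (R^[m] x)‖ ^ 2 ∂μ := by
    refine integral_congr_ae ?_
    filter_upwards [h1] with x e1
    rw [e1]
  rw [hPP, h2]
  exact int_comp (hS.mp.iterate m) (g := fun x => ‖(μ[P0|C]) x‖ ^ 2)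
    ((ce_meas hC.1).norm.pow_const 2).aestronglyMeasurable

theorem al_eq (C : SA Ω) (R : Ω → Ω) (F : Ω → ℂ) (H : ℕ) :
    al μ C R (fun _ => (1 : ℂ →L[ℂ] ℂ)) F H = (∑ h ∈ range H, be μ C R F h) / H := by
  unfold al be
  congr 1
  refine Finset.sum_congr rfl fun h _ => ?_
  have e : (fun x => (inner ℂ (F x) (Wi (fun _ => (1 : ℂ →L[ℂ] ℂ)) R h F x) : ℂ)) =
      fun x => F (R^[h] x) * conj (F x) := by
    funext x
    rw [Wi_one, RCLike.inner_apply]
  rw [e]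

/-- the sums of the relative correlations -/
theorem a0_sum {C : SA Ω} {R : Ω → Ω} {F : Ω → ℂ} (h : A0 μ C R F) {A : ℝ} (hA : 0 < A) :
    ∃ K : ℝ, ∀ H : ℕ, ∑ h ∈ range H, be μ C R F h ≤ A * H + K := by
  have hev : ∀ᶠ H : ℕ in atTop, al μ C R (fun _ => (1 : ℂ →L[ℂ] ℂ)) F H < A :=
    (tendsto_order.1 h).2 A hA
  obtain ⟨H0, hH0⟩ := eventually_atTop.1 hev
  refine ⟨∑ h ∈ range H0, be μ C R F h, fun H => ?_⟩
  have hK : 0 ≤ ∑ h ∈ range H0, be μ C R F h := Finset.sum_nonneg fun h _ => be_nonneg _ _ _ _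
  rcases le_total H0 H with hH | hH
  · rcases Nat.eq_zero_or_pos H with rfl | hHp
    · simpa using hK
    · have h1 := hH0 H hH
      rw [al_eq, div_lt_iff₀ (by exact_mod_cast hHp)] at h1
      linarith
  · have h1 : ∑ h ∈ range H, be μ C R F h ≤ ∑ h ∈ range H0, be μ C R F h :=
      Finset.sum_le_sum_of_subset_of_nonneg (Finset.range_mono hH)
        fun h _ _ => be_nonneg _ _ _ _
    have : 0 ≤ A * H := by positivity
    linarith

/-- the double averages of the square roots -/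
theorem sqrt_sum (β : ℕ → ℝ) (h0 : ∀ h, 0 ≤ β h) (A K : ℝ)
    (hS : ∀ H : ℕ, ∑ h ∈ range H, β h ≤ A * H + K) (N : ℕ) :
    ∑ p ∈ range N ×ˢ range N, √(β ((p.1 - p.2) + (p.2 - p.1))) ≤
      N * √(A * (N * (N + 1)) + 2 * K * N) := by
  have s1 := Real.sum_sqrt_mul_sqrt_le (range N ×ˢ range N) (f := fun _ : ℕ × ℕ => (1 : ℝ))
    (g := fun p : ℕ × ℕ => β ((p.1 - p.2) + (p.2 - p.1)))
    (fun p => zero_le_one) (fun p => h0 _)
  have e1 : ∑ p ∈ range N ×ˢ range N, √(1 : ℝ) * √(β ((p.1 - p.2) + (p.2 - p.1))) =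
      ∑ p ∈ range N ×ˢ range N, √(β ((p.1 - p.2) + (p.2 - p.1))) := by simp
  have e2 : √(∑ p ∈ range N ×ˢ range N, (1 : ℝ)) = N := by
    rw [Finset.sum_const, Finset.card_product, Finset.card_range, nsmul_eq_mul, mul_one]
    push_cast
    exact Real.sqrt_mul_self (by positivity)
  rw [e1, e2] at s1
  refine s1.trans (mul_le_mul_of_nonneg_left (Real.sqrt_le_sqrt ?_) (by positivity))
  exact be_sum β h0 A K hS N

/-- the double averages tend to zero -/
theorem sqrt_lim {β : ℕ → ℝ} (h0 : ∀ h, 0 ≤ β h)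
    (hS : ∀ A : ℝ, 0 < A → ∃ K : ℝ, ∀ H : ℕ, ∑ h ∈ range H, β h ≤ A * H + K) :
    Tendsto (fun N : ℕ => (∑ p ∈ range N ×ˢ range N, √(β ((p.1 - p.2) + (p.2 - p.1)))) /
      (N : ℝ) ^ 2) atTop (𝓝 0) := by
  refine tendsto_order.2 ⟨fun a ha => Eventually.of_forall fun N => ha.trans_le ?_, ?_⟩
  · exact div_nonneg (Finset.sum_nonneg fun p _ => Real.sqrt_nonneg _) (by positivity)
  intro ε hε
  have hA : (0 : ℝ) < (ε / 2) ^ 2 := by positivity
  obtain ⟨K, hK⟩ := hS _ hA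
  have limZ : Tendsto (fun N : ℕ => √((ε / 2) ^ 2 * (N * (N + 1)) + 2 * K * N) / N) atTop
      (𝓝 √((ε / 2) ^ 2)) := by
    have h1 : Tendsto (fun N : ℕ => (ε / 2) ^ 2 * (1 + 1 / (N : ℝ)) + 2 * K / N) atTop
        (𝓝 ((ε / 2) ^ 2 * (1 + 0) + 0)) :=
      ((tendsto_const_nhds.add (tendsto_const_div_atTop_nhds_zero_nat 1)).const_mul _).add
        (tendsto_const_div_atTop_nhds_zero_nat (2 * K))
    have h2 := (Real.continuous_sqrt.tendsto _).comp h1
    rw [add_zero, add_zero, mul_one] at h2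
    refine h2.congr' ?_
    filter_upwards [eventually_ge_atTop 1] with N hN
    have hN0 : (0 : ℝ) < N := by exact_mod_cast hN
    show √((ε / 2) ^ 2 * (1 + 1 / (N : ℝ)) + 2 * K / N) = _
    have e : (ε / 2) ^ 2 * (1 + 1 / (N : ℝ)) + 2 * K / N =
        ((ε / 2) ^ 2 * (N * (N + 1)) + 2 * K * N) / N ^ 2 := by
      field_simp
    rw [e, Real.sqrt_div' _ (by positivity), Real.sqrt_sq hN0.le]
  rw [Real.sqrt_sq (by positivity)] at limZ
  filter_upwards [(tendsto_order.1 limZ).2 ε (by linarith), eventually_ge_atTop 1] with N h1 hN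
  have hN0 : (0 : ℝ) < N := by exact_mod_cast hN
  have h2 := sqrt_sum β h0 _ K hK N
  rw [div_lt_iff₀ (by positivity)]
  rw [div_lt_iff₀ hN0] at h1
  refine h2.trans_lt ?_
  nlinarith

/-! ### correlations with a second function -/

section main

variable {R R' : Ω → Ω} {C : SA Ω} {f g : Ω → ℂ}

/-- the inequality of van der Corput -/
theorem wm_le (hS : Sys μ R R') (hC : IA μ C R R') (hf : BF f) (hg : BF g) {K : ℝ}
    (hK : ∀ h : ℕ, ∀ᵐ x ∂μ, ‖(μ[fun x => conj (g x) * f (R^[h] x)|C]) x‖ ≤ K) (H : ℕ) :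
    (∑ h ∈ range H, ∫ x, ‖(μ[fun x => conj (g x) * f (R^[h] x)|C]) x‖ ^ 2 ∂μ) ^ 2 ≤
      (∫ x, ‖g x‖ ^ 2 ∂μ) * (K ^ 2 * ∑ p ∈ range H ×ˢ range H,
        √(be μ C R f ((p.1 - p.2) + (p.2 - p.1)))) := by
  have hRn : ∀ n : ℕ, Measurable R^[n] := fun n => hS.mp.measurable.iterate n
  have hPb : ∀ h : ℕ, BF (fun x => conj (g x) * f (R^[h] x)) := fun h =>
    bf_mul (bf_conj hg) (bf_comp hf (hRn _))
  choose c hcb hcC hce using fun h : ℕ => ce_bf (μ := μ) hC.1 (hPb h)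
  set a : ℕ → Ω → ℂ := fun h x => conj (c h x) * f (R^[h] x) with ha
  have hab : ∀ h, BF (a h) := fun h => bf_mul (bf_conj (hcb h)) (bf_comp hf (hRn _))
  have hcK : ∀ h, ∀ᵐ x ∂μ, ‖c h x‖ ≤ K := by
    intro h
    filter_upwards [hK h, hce h] with x h1 h2
    rw [h2]
    exact h1
  have hn0 : ∀ G : Ω → ℂ, 0 ≤ ∫ x, ‖G x‖ ^ 2 ∂μ := fun G =>
    integral_nonneg fun x => by positivity
  -- the left side
  have hL : ∀ h, ((∫ x, ‖(μ[fun x => conj (g x) * f (R^[h] x)|C]) x‖ ^ 2 ∂μ : ℝ) : ℂ) =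
      ∫ x, conj (g x) * a h x ∂μ := by
    intro h
    have e1 : ∫ x, conj (c h x) * (μ[fun x => conj (g x) * f (R^[h] x)|C]) x ∂μ =
        ∫ x, conj (c h x) * (conj (g x) * f (R^[h] x)) ∂μ :=
      int_ce hC.1 (am_conj (hcC h)) (bf_conj (hcb h)).ab (bf_int (hPb h))
    have e2 : ∫ x, conj (g x) * a h x ∂μ = ∫ x, conj (c h x) * (conj (g x) * f (R^[h] x)) ∂μ := by
      refine integral_congr_ae (Eventually.of_forall fun x => ?_)
      simp only [ha]
      ring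
    rw [e2, ← e1, ← integral_complex_ofReal]
    refine integral_congr_ae ?_
    filter_upwards [hce h] with x hx
    rw [← hx, mul_comm, Complex.mul_conj, Complex.normSq_eq_norm_sq]
  set s : Ω → ℂ := fun x => ∑ n ∈ range H, a n x with hs
  have hsm : MemLp s 2 μ := memLp_finsetSum _ fun n _ => bf_memLp (hab n)
  have h1 : ((∑ h ∈ range H,
      ∫ x, ‖(μ[fun x => conj (g x) * f (R^[h] x)|C]) x‖ ^ 2 ∂μ : ℝ) : ℂ) =
      ∫ x, conj (g x) * s x ∂μ := by
    rw [Complex.ofReal_sum, Finset.sum_congr rfl fun h _ => hL h, ← integral_finsetSum _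
      fun n _ => bf_int (bf_mul (bf_conj hg) (hab n))]
    refine integral_congr_ae (Eventually.of_forall fun x => ?_)
    show ∑ h ∈ range H, _ = conj (g x) * ∑ n ∈ range H, a n x
    rw [Finset.mul_sum]
  have hS0 : 0 ≤ ∑ h ∈ range H, ∫ x, ‖(μ[fun x => conj (g x) * f (R^[h] x)|C]) x‖ ^ 2 ∂μ :=
    Finset.sum_nonneg fun h _ => hn0 _
  have h2 := cs (μ := μ) (bf_memLp (bf_conj hg)) hsm
  rw [← h1, Complex.norm_real, Real.norm_of_nonneg hS0] at h2
  have h3 := pow_le_pow_left₀ hS0 h2 2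
  rw [mul_pow, Real.sq_sqrt (hn0 _), Real.sq_sqrt (hn0 _)] at h3
  have e3 : ∫ x, ‖conj (g x)‖ ^ 2 ∂μ = ∫ x, ‖g x‖ ^ 2 ∂μ := by
    refine integral_congr_ae (Eventually.of_forall fun x => ?_)
    simp only [RCLike.norm_conj]
  rw [e3] at h3
  refine h3.trans (mul_le_mul_of_nonneg_left ?_ (hn0 _))
  -- the right side
  have h4 := van (μ := μ) hab (fun h => K ^ 2 * √(be μ C R f h)) H ?_
  · rw [Finset.mul_sum]
    exact h4
  intro h m _
  set P : Ω → ℂ := fun x => f (R^[h + m] x) * conj (f (R^[m] x)) with hP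
  set u : Ω → ℂ := fun x => conj (c (h + m) x) * c m x with hu
  have hPbf : BF P := bf_mul (bf_comp hf (hRn _)) (bf_conj (bf_comp hf (hRn _)))
  have hub : BF u := bf_mul (bf_conj (hcb _)) (hcb _)
  have huC : AM μ C u := am_mul (am_conj (hcC _)) (hcC _)
  have e4 : ∫ x, a (h + m) x * conj (a m x) ∂μ = ∫ x, u x * (μ[P|C]) x ∂μ := by
    rw [int_ce hC.1 huC hub.ab (bf_int hPbf)]
    refine integral_congr_ae (Eventually.of_forall fun x => ?_)
    simp only [ha, hu, hP, map_mul, Complex.conj_conj]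
    ring
  have hce2 : MemLp (μ[P|C]) 2 μ := ce_memLp (bf_memLp hPbf)
  rw [e4]
  refine (norm_integral_le_integral_norm _).trans ?_
  have h5 : ∫ x, ‖u x * (μ[P|C]) x‖ ∂μ ≤ ∫ x, K ^ 2 * ‖(μ[P|C]) x‖ ∂μ := by
    refine integral_mono_ae (hub.ab.mul ((hPbf.ab (μ := μ)).ce hC.1)).int.norm
      (ce_int.norm.const_mul _) ?_
    filter_upwards [hcK (h + m), hcK m] with x k1 k2
    rw [norm_mul]
    refine mul_le_mul_of_nonneg_right ?_ (norm_nonneg _)
    simp only [hu, norm_mul, RCLike.norm_conj]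
    rw [sq]
    exact mul_le_mul k1 k2 (norm_nonneg _) ((norm_nonneg _).trans k1)
  refine h5.trans ?_
  rw [integral_const_mul]
  refine mul_le_mul_of_nonneg_left ?_ (by positivity)
  have h6 := l1_le (μ := μ) hce2
  have h7 := be_shift (μ := μ) hS hC hf h m
  rw [← hP] at h7
  rw [h7] at h6
  exact h6

theorem st_WMG : ST_WMG := by
  intro Ω m0 μ _ R R' C f g hS hC hf hg hA
  have hRn : ∀ n : ℕ, Measurable R^[n] := fun n => hS.mp.measurable.iterate n
  obtain ⟨hfm, Bf, hBf⟩ := id hf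
  obtain ⟨hgm, Bg, hBg⟩ := id hg
  have hK : ∀ h : ℕ, ∀ᵐ x ∂μ, ‖(μ[fun x => conj (g x) * f (R^[h] x)|C]) x‖ ≤ Bg * Bf := by
    intro h
    refine ce_bdd hC.1 (bf_int (bf_mul (bf_conj hg) (bf_comp hf (hRn _))))
      (Eventually.of_forall fun x => ?_)
    rw [norm_mul, RCLike.norm_conj]
    exact mul_le_mul (hBg x) (hBf _) (norm_nonneg _) ((norm_nonneg _).trans (hBg x))
  have hlim := sqrt_lim (β := be μ C R f) (be_nonneg C R f) fun A hA' => a0_sum hA hA'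
  have hG0 : 0 ≤ ∫ x, ‖g x‖ ^ 2 ∂μ := integral_nonneg fun x => by positivity
  have hlim2 : Tendsto (fun N : ℕ => √((∫ x, ‖g x‖ ^ 2 ∂μ) * ((Bg * Bf) ^ 2 *
      ((∑ p ∈ range N ×ˢ range N, √(be μ C R f ((p.1 - p.2) + (p.2 - p.1)))) /
      (N : ℝ) ^ 2)))) atTop (𝓝 0) := by
    have := (Real.continuous_sqrt.tendsto _).comp
      ((hlim.const_mul ((Bg * Bf) ^ 2)).const_mul (∫ x, ‖g x‖ ^ 2 ∂μ))
    rw [mul_zero, mul_zero, Real.sqrt_zero] at this
    exact this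
  refine squeeze_zero (fun H => ?_) (fun H => ?_) hlim2
  · exact div_nonneg (Finset.sum_nonneg fun h _ => integral_nonneg fun x => by positivity)
      (by positivity)
  rcases Nat.eq_zero_or_pos H with rfl | hH
  · simp
  have hH0 : (0 : ℝ) < H := by exact_mod_cast hH
  have h1 := wm_le hS hC hf hg hK H
  refine Real.le_sqrt_of_sq_le ?_
  rw [div_pow, div_le_iff₀ (by positivity)]
  refine h1.trans_eq ?_
  field_simp

end main

end Pool.Agent.Helper92.TA
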